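import Pool.Agent.Helper58.PB.StS

/-!
# Project PB: module SUP (sup norm of the exponential sums of `th - Gr`)
-/

set_option autoImplicit false

namespace Pool.Agent.Helper61.PB

open Finset ArithmeticFunction
open Pool.Agent.Helper48.BK (ex th Sx Apx rr win AdN Admissible Solv Cl thd nd)
open Pool.Agent.Helper23.GK (cR)
open Pool.Agent.Helper23.MV (PCh PS ZF ZS mwt OKb ta Sc mm)
open Pool.Agent.Helper58.PB

private lemma mem_PS_SUP (Q : ℝ) (c : PCh) (h : c ∈ PS Q) : (c.r : ℝ) ≤ Q := by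
  classical
  unfold PS at h
  split_ifs at h with hf
  · simpa using h
  · simp at h

private lemma ex_add_int_SUP (t : ℝ) (k : ℤ) : ex (t + k) = ex t := by
  unfold ex
  have h : (2 * Real.pi * ((t + k : ℝ) : ℂ) * Complex.I) =
      2 * Real.pi * (t : ℂ) * Complex.I + k * (2 * Real.pi * Complex.I) := by
    push_cast
    ring
  rw [h, Complex.exp_add, Complex.exp_int_mul_two_pi_mul_I, mul_one]

private lemma ex_conj_SUP (t : ℝ) : (starRingEnd ℂ) (ex (-t)) = ex t := by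
  unfold ex
  rw [← Complex.exp_conj]
  congr 1
  have h2 : (starRingEnd ℂ) 2 = 2 := map_ofNat _ 2
  simp [h2]

private lemma ex_per_SUP (n : ℕ) (α β : ℝ) (k : ℤ) (h : α = β + k) : ex (n * α) = ex (n * β) := by
  have h1 : (n : ℝ) * α = n * β + ((n * k : ℤ) : ℝ) := by
    rw [h]
    push_cast
    ring
  rw [h1, ex_add_int_SUP]

/-- reduction to the complex model -/
private lemma red_SUP (P : ℝ) (Q L y : ℕ) (α : ℝ) :
    Sx (fun n => th n - Gr P Q L n) y α =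
      ((Sx th y α - ∑ n ∈ Ioc 0 y, Gc P Q L n * ex (n * α)) +
        (starRingEnd ℂ) (Sx th y (-α) - ∑ n ∈ Ioc 0 y, Gc P Q L n * ex (n * (-α)))) / 2 := by
  unfold Sx
  rw [← sum_sub_distrib, ← sum_sub_distrib, map_sum, ← sum_add_distrib, sum_div]
  refine sum_congr rfl fun n _ => ?_
  have h1 : (starRingEnd ℂ) (ex ((n : ℝ) * (-α))) = ex (n * α) := by
    rw [mul_neg]
    exact ex_conj_SUP _
  rw [map_sub, map_mul, map_mul, h1]
  have h2 : (starRingEnd ℂ) ((th n : ℝ) : ℂ) = ((th n : ℝ) : ℂ) := Complex.conj_ofReal _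
  rw [h2]
  have h3 : ((Gr P Q L n : ℝ) : ℂ) = (Gc P Q L n + (starRingEnd ℂ) (Gc P Q L n)) / 2 := by
    unfold Gr
    rw [Complex.re_eq_add_conj]
  push_cast
  rw [h3]
  ring

/-- a fraction near `α` in reduced form -/
private lemma frac_SUP (α η : ℝ) (q a D : ℕ) (hq : 1 ≤ q) (hD : q ≤ D)
    (h : nd (α - (a : ℝ) / q) ≤ η) :
    ∃ (q₀ a₀ : ℕ) (β : ℝ) (k : ℤ), 1 ≤ q₀ ∧ q₀ ≤ D ∧ a₀ ≤ q₀ ∧ Nat.Coprime a₀ q₀ ∧ |β| ≤ η ∧
      α = (a₀ : ℝ) / q₀ + β + k := by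
  have hq0 : 0 < q := hq
  set g := Nat.gcd a q with hg
  have hgpos : 0 < g := Nat.gcd_pos_of_pos_right _ hq0
  set q₀ := q / g with hq₀
  set a₁ := a / g with ha₁
  have hqg : q₀ * g = q := Nat.div_mul_cancel (Nat.gcd_dvd_right a q)
  have hag : a₁ * g = a := Nat.div_mul_cancel (Nat.gcd_dvd_left a q)
  have hq₀pos : 0 < q₀ := Nat.pos_of_ne_zero fun h0 => by
    rw [h0] at hqg
    omega
  have hcop : Nat.Coprime a₁ q₀ := Nat.coprime_div_gcd_div_gcd hgpos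
  refine ⟨q₀, a₁ % q₀, α - (a : ℝ) / q - round (α - (a : ℝ) / q),
    round (α - (a : ℝ) / q) + ((a₁ / q₀ : ℕ) : ℤ), hq₀pos, ?_, ?_, ?_, ?_, ?_⟩
  · exact (Nat.div_le_self _ _).trans hD
  · exact (Nat.mod_lt _ hq₀pos).le
  · have h1 := hcop
    rw [Nat.Coprime, Nat.gcd_comm] at h1
    rw [Nat.Coprime, Nat.gcd_comm, ← h1]
    rw [Nat.gcd_comm q₀ (a₁ % q₀), Nat.gcd_comm q₀ a₁]
    exact (Nat.gcd_rec q₀ a₁).symm ▸ (by rw [Nat.gcd_comm])
  · exact h
  · have h2 : (a : ℝ) / q = (a₁ : ℝ) / q₀ := by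
      have hqr : (q : ℝ) = q₀ * g := by exact_mod_cast hqg.symm
      have har : (a : ℝ) = a₁ * g := by exact_mod_cast hag.symm
      have hg0 : (g : ℝ) ≠ 0 := by exact_mod_cast hgpos.ne'
      have hq00 : (q₀ : ℝ) ≠ 0 := by exact_mod_cast hq₀pos.ne'
      rw [hqr, har]
      field_simp
    have h3 : (a₁ : ℝ) = (a₁ % q₀ : ℕ) + q₀ * (a₁ / q₀ : ℕ) := by
      exact_mod_cast (Nat.mod_add_div a₁ q₀).symm
    have hq00 : (q₀ : ℝ) ≠ 0 := by exact_mod_cast hq₀pos.ne'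
    have h4 : (a₁ : ℝ) / q₀ = ((a₁ % q₀ : ℕ) : ℝ) / q₀ + ((a₁ / q₀ : ℕ) : ℝ) := by
      rw [h3]
      field_simp
    have h5 := h4
    rw [← h2] at h5
    rw [Int.cast_add, Int.cast_natCast]
    linarith

private lemma sum_bd_SUP (S T : Finset PCh) (hST : S ⊆ T) (f g : PCh → ℂ) (B : ℝ) (hB : 0 ≤ B)
    (h : ∀ c ∈ S, ‖f c‖ ≤ B) : ‖∑ c ∈ S, f c * g c‖ ≤ B * ∑ c ∈ T, ‖g c‖ := by
  calc ‖∑ c ∈ S, f c * g c‖ ≤ ∑ c ∈ S, ‖f c * g c‖ := norm_sum_le _ _
    _ ≤ ∑ c ∈ S, B * ‖g c‖ := by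
        refine sum_le_sum fun c hc => ?_
        rw [norm_mul]
        exact mul_le_mul_of_nonneg_right (h c hc) (norm_nonneg _)
    _ ≤ ∑ c ∈ T, B * ‖g c‖ :=
        sum_le_sum_of_subset_of_nonneg hST fun c _ _ => mul_nonneg hB (norm_nonneg _)
    _ = B * ∑ c ∈ T, ‖g c‖ := by rw [mul_sum]

/-- the main estimate for the complex model -/
private lemma main_SUP (hNrf : StNrf) (hNrn : StNrn) (hFar : StFar) (hMid : StMid) (hMtc : StMtc)
    (hKer : StKer) (hTa : StTa1) (hCps : StCps) : ∃ P0 C : ℝ, 2 ≤ P0 ∧ 1 ≤ C ∧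
    ∀ (P : ℝ) (X Q L : ℕ), P0 ≤ P →
    P ≤ (X : ℝ) ^ (1 / 5000 : ℝ) → Real.log X ≤ P ^ (1 / 100 : ℝ) → (Q : ℝ) ≤ P ^ 50 →
    P ^ 49 ≤ Q → (X : ℝ) / (2 * P ^ 200) ≤ L → (L : ℝ) ≤ X / P ^ 200 →
    (∀ (y : ℕ) (β : ℝ), y ≤ X → |β| ≤ P ^ 20 / X → ∑ c ∈ PS P, ‖Tc c y β‖ ≤ 5 * X) →
    ∀ (y : ℕ) (α : ℝ), y ≤ X →
      ‖Sx th y α - ∑ n ∈ Ioc 0 y, Gc P Q L n * ex (n * α)‖ ≤
        (5 * C + 40) * (X * P ^ (-(2 / 5) : ℝ)) := by
  obtain ⟨P1, hP1, hNrf⟩ := hNrf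
  obtain ⟨P2, hP2, hNrn⟩ := hNrn
  obtain ⟨P3, hP3, hFar⟩ := hFar
  obtain ⟨P4, hP4, hMid⟩ := hMid
  obtain ⟨-, -, C, hC, hTa⟩ := hTa
  obtain ⟨hCps, -, -⟩ := hCps
  refine ⟨max (max P1 P2) (max P3 P4), C, hP1.trans ((le_max_left _ _).trans (le_max_left _ _)), hC, ?_⟩
  intro P X Q L hP hPX hlog hQ hQ' hL hL' hyp y α hy
  have hPP1 : P1 ≤ P := ((le_max_left _ _).trans (le_max_left _ _)).trans hP
  have hPP2 : P2 ≤ P := ((le_max_right _ _).trans (le_max_left _ _)).trans hP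
  have hPP3 : P3 ≤ P := ((le_max_left _ _).trans (le_max_right _ _)).trans hP
  have hPP4 : P4 ≤ P := ((le_max_right _ _).trans (le_max_right _ _)).trans hP
  have hP2 : 2 ≤ P := hP1.trans hPP1
  have hP0 : 0 < P := by linarith
  have hP1' : 1 ≤ P := by linarith
  -- size of `X`
  have hXP : P ^ 5000 ≤ (X : ℝ) := by
    have h1 : P ^ 5000 ≤ ((X : ℝ) ^ (1 / 5000 : ℝ)) ^ 5000 := pow_le_pow_left₀ hP0.le hPX 5000
    have h2 : ((X : ℝ) ^ (1 / 5000 : ℝ)) ^ 5000 = X := by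
      rw [← Real.rpow_natCast ((X : ℝ) ^ (1 / 5000 : ℝ)) 5000, ← Real.rpow_mul (Nat.cast_nonneg X)]
      norm_num
    rwa [h2] at h1
  have hX5 : P ^ 5 ≤ (X : ℝ) := (pow_le_pow_right₀ hP1' (by norm_num)).trans hXP
  have hX0 : 0 < (X : ℝ) := lt_of_lt_of_le (by positivity) hX5
  have hX2 : 2 ≤ X := by
    have h1 : (2 : ℝ) ≤ X := by
      calc (2 : ℝ) ≤ P := hP2
        _ = P ^ 1 := (pow_one P).symm
        _ ≤ P ^ 5 := pow_le_pow_right₀ hP1' (by norm_num)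
        _ ≤ X := hX5
    exact_mod_cast h1
  -- comparison of powers of `P`
  have hpw : ∀ s : ℝ, s ≤ -(2 / 5) → P ^ s ≤ P ^ (-(2 / 5) : ℝ) := fun s hs =>
    Real.rpow_le_rpow_of_exponent_le hP1' hs
  have hW0 : 0 ≤ (X : ℝ) * P ^ (-(2 / 5) : ℝ) := by positivity
  have hinv : P⁻¹ ≤ P ^ (-(2 / 5) : ℝ) := by
    have h1 := hpw (-1) (by norm_num)
    rwa [Real.rpow_neg_one] at h1
  set W : ℝ := (X : ℝ) * P ^ (-(2 / 5) : ℝ) with hW
  have hpwX : ∀ s : ℝ, s ≤ -(2 / 5) → (X : ℝ) * P ^ s ≤ W := fun s hs =>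
    mul_le_mul_of_nonneg_left (hpw s hs) hX0.le
  have h80 : (X : ℝ) * P ^ (-80 : ℝ) ≤ W := hpwX _ (by norm_num)
  have hCW : 0 ≤ C * W := by positivity
  set D : ℕ := ⌊P⌋₊ * Q with hD
  have hQ0 : (1 : ℝ) ≤ Q := (one_le_pow₀ hP1').trans hQ'
  have hDQ : (Q : ℝ) ≤ D := by
    have h1 : 1 ≤ ⌊P⌋₊ := Nat.le_floor (by exact_mod_cast hP1')
    have h2 : Q ≤ ⌊P⌋₊ * Q := Nat.le_mul_of_pos_left _ h1
    exact_mod_cast h2
  have hD49 : P ^ 49 ≤ (D : ℝ) := hQ'.trans hDQ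
  have hβ97 : ∀ β : ℝ, |β| ≤ 1 / (2 * (D : ℝ) ^ 2) → |β| ≤ P ^ (-97 : ℝ) := by
    intro β hβ
    refine hβ.trans ?_
    have h1 : (P ^ 49) ^ 2 ≤ (D : ℝ) ^ 2 := pow_le_pow_left₀ (by positivity) hD49 2
    have h2 : P ^ 97 ≤ 2 * (D : ℝ) ^ 2 := by
      have h3 : P ^ 97 ≤ (P ^ 49) ^ 2 := by
        rw [← pow_mul]
        exact pow_le_pow_right₀ hP1' (by norm_num)
      have h4 : 0 ≤ (D : ℝ) ^ 2 := by positivity
      linarith
    have h5 : P ^ (-97 : ℝ) = 1 / P ^ 97 := by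
      rw [Real.rpow_neg hP0.le, one_div]
      congr 1
      exact_mod_cast Real.rpow_natCast P 97
    rw [h5]
    exact one_div_le_one_div_of_le (by positivity) h2
  by_cases hN : ∀ (q a : ℕ), 1 ≤ q → q ≤ D → 1 / (2 * (D : ℝ) ^ 2) < nd (α - (a : ℝ) / q)
  · -- far from all frequencies
    have h1 := hNrn P X Q L y α hPP2 hPX hlog hQ hQ' hL hL' hy hN
    have h2 := (hMid P X Q y hPP4 hPX hlog hQ hQ' hy).2 α hN
    calc ‖Sx th y α - ∑ n ∈ Ioc 0 y, Gc P Q L n * ex (n * α)‖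
        ≤ ‖Sx th y α‖ + ‖∑ n ∈ Ioc 0 y, Gc P Q L n * ex (n * α)‖ := norm_sub_le _ _
      _ ≤ W + W := add_le_add h2 (h1.trans h80)
      _ ≤ (5 * C + 40) * W := by nlinarith
  · push Not at hN
    obtain ⟨q, a, hq1, hqD, hnd⟩ := hN
    obtain ⟨q₀, a₀, β, k, hq₀1, hq₀D, ha₀, hcop, hβ, hαk⟩ := frac_SUP α _ q a D hq1 hqD hnd
    have hSx : Sx th y α = Sx th y ((a₀ : ℝ) / q₀ + β) := by
      unfold Sx
      exact sum_congr rfl fun n _ => by rw [ex_per_SUP n α _ k hαk]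
    have hGx : ∑ n ∈ Ioc 0 y, Gc P Q L n * ex (n * α) =
        ∑ n ∈ Ioc 0 y, Gc P Q L n * ex (n * ((a₀ : ℝ) / q₀ + β)) :=
      sum_congr rfl fun n _ => by rw [ex_per_SUP n α _ k hαk]
    rw [hSx, hGx]
    have hnrf := hNrf P X Q L y q₀ a₀ β hPP1 hPX hlog hQ hQ' hL hL' hy hq₀1 hq₀D ha₀ hcop hβ
    set F := (PS P).filter (fun c => c.r ∣ q₀ ∧ q₀ / c.r ≤ Q) with hF
    set G := ∑ n ∈ Ioc 0 y, Gc P Q L n * ex (n * ((a₀ : ℝ) / q₀ + β)) with hG
    set T := Sx th y ((a₀ : ℝ) / q₀ + β) with hT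
    have hFsub : F ⊆ PS P := filter_subset _ _
    have hL1 : 1 ≤ L := by
      have h1 : (0 : ℝ) < L := lt_of_lt_of_le (by positivity) hL
      exact_mod_cast h1
    have hkk1 : ‖kk L β‖ ≤ 1 := (hKer L β hL1).1
    have hkk2 : ‖kk L β - 1‖ ≤ 2 * Real.pi * L * |β| := (hKer L β hL1).2.2
    have hnrf' := hnrf.trans h80
    by_cases hqP : (q₀ : ℝ) ≤ P
    · by_cases hβX : |β| ≤ P ^ 20 / X
      · -- major arcs
        have hFeq : F = (PS P).filter (fun c => c.r ∣ q₀) := by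
          rw [hF]
          refine filter_congr fun c _ => ⟨fun h => h.1, fun h => ⟨h, ?_⟩⟩
          have h1 : q₀ ≤ Q := by
            have h2 : (q₀ : ℝ) ≤ Q := by
              calc (q₀ : ℝ) ≤ P := hqP
                _ = P ^ 1 := (pow_one P).symm
                _ ≤ P ^ 49 := pow_le_pow_right₀ hP1' (by norm_num)
                _ ≤ Q := hQ'
            exact_mod_cast h2
          exact (Nat.div_le_self _ _).trans h1
        have hmtc := hMtc P X y q₀ a₀ β hq₀1 hqP hcop hy hX2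
        rw [← hFeq] at hmtc
        have hsum := hyp y β hy hβX
        have hLβ : 2 * Real.pi * L * |β| ≤ 7 * P ^ (-(2 / 5) : ℝ) := by
          have h1 : (L : ℝ) * |β| ≤ X / P ^ 200 * (P ^ 20 / X) :=
            mul_le_mul hL' hβX (abs_nonneg _) (by positivity)
          have h2 : (X : ℝ) / P ^ 200 * (P ^ 20 / X) = (P ^ 180)⁻¹ := by
            have h3 : P ^ 200 = P ^ 180 * P ^ 20 := by rw [← pow_add]
            rw [h3]
            field_simp
          have h3 : (P ^ 180)⁻¹ ≤ P⁻¹ := by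
            apply inv_anti₀ hP0
            calc P = P ^ 1 := (pow_one P).symm
              _ ≤ P ^ 180 := pow_le_pow_right₀ hP1' (by norm_num)
          have h4 : (L : ℝ) * |β| ≤ P ^ (-(2 / 5) : ℝ) := by
            rw [h2] at h1
            exact (h1.trans h3).trans hinv
          have h5 : 2 * Real.pi ≤ 7 := by linarith [Real.pi_lt_d2]
          have h6 : 0 ≤ (L : ℝ) * |β| := by positivity
          calc 2 * Real.pi * L * |β| = 2 * Real.pi * (L * |β|) := by ring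
            _ ≤ 7 * P ^ (-(2 / 5) : ℝ) := mul_le_mul h5 h4 h6 (by norm_num)
        have hdiff : ‖∑ c ∈ F, kap c q₀ a₀ * Tc c y β - ∑ c ∈ F, kap c q₀ a₀ * (kk L β * Tc c y β)‖ ≤
            35 * W := by
          have h1 : ∑ c ∈ F, kap c q₀ a₀ * Tc c y β - ∑ c ∈ F, kap c q₀ a₀ * (kk L β * Tc c y β) =
              ∑ c ∈ F, (kap c q₀ a₀ * (1 - kk L β)) * Tc c y β := by
            rw [← sum_sub_distrib]
            exact sum_congr rfl fun c _ => by ring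
          rw [h1]
          have h2 := sum_bd_SUP F (PS P) hFsub (fun c => kap c q₀ a₀ * (1 - kk L β))
            (fun c => Tc c y β) (7 * P ^ (-(2 / 5) : ℝ)) (by positivity) (fun c hc => by
              have h3 : c.r ∣ q₀ := (mem_filter.1 hc).2.1
              have h4 := (hTa c q₀ a₀ hq₀1 h3).1
              rw [norm_mul]
              have h5 : ‖1 - kk L β‖ ≤ 7 * P ^ (-(2 / 5) : ℝ) := by
                rw [norm_sub_rev]
                exact hkk2.trans hLβ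
              calc ‖kap c q₀ a₀‖ * ‖1 - kk L β‖ ≤ 1 * (7 * P ^ (-(2 / 5) : ℝ)) :=
                    mul_le_mul h4 h5 (norm_nonneg _) zero_le_one
                _ = 7 * P ^ (-(2 / 5) : ℝ) := one_mul _)
          refine h2.trans ?_
          calc 7 * P ^ (-(2 / 5) : ℝ) * ∑ c ∈ PS P, ‖Tc c y β‖
              ≤ 7 * P ^ (-(2 / 5) : ℝ) * (5 * X) :=
                mul_le_mul_of_nonneg_left hsum (by positivity)
            _ = 35 * W := by rw [hW]; ring
        have hlg : 2 * P ^ 2 * Real.log X ≤ W := by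
          have h1 : Real.log X ≤ P := by
            refine hlog.trans ?_
            calc P ^ (1 / 100 : ℝ) ≤ P ^ (1 : ℝ) :=
                  Real.rpow_le_rpow_of_exponent_le hP1' (by norm_num)
              _ = P := Real.rpow_one P
          have h2 : 2 * P ^ 2 * Real.log X ≤ 2 * P ^ 2 * P :=
            mul_le_mul_of_nonneg_left h1 (by positivity)
          have h3 : 2 * P ^ 2 * P ≤ P ^ 4 := by
            have h4 : 0 ≤ P ^ 3 := by positivity
            nlinarith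
          have h4 : P ^ 4 = P ^ 5 * P⁻¹ := by
            field_simp
          calc 2 * P ^ 2 * Real.log X ≤ P ^ 4 := h2.trans h3
            _ = P ^ 5 * P⁻¹ := h4
            _ ≤ X * P ^ (-(2 / 5) : ℝ) := mul_le_mul hX5 hinv (by positivity) hX0.le
        have htri : T - G = (T - ∑ c ∈ F, kap c q₀ a₀ * Tc c y β) +
            (∑ c ∈ F, kap c q₀ a₀ * Tc c y β - ∑ c ∈ F, kap c q₀ a₀ * (kk L β * Tc c y β)) -
            (G - ∑ c ∈ F, kap c q₀ a₀ * (kk L β * Tc c y β)) := by ring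
        rw [htri]
        calc _ ≤ ‖(T - ∑ c ∈ F, kap c q₀ a₀ * Tc c y β) +
            (∑ c ∈ F, kap c q₀ a₀ * Tc c y β - ∑ c ∈ F, kap c q₀ a₀ * (kk L β * Tc c y β))‖ +
            ‖G - ∑ c ∈ F, kap c q₀ a₀ * (kk L β * Tc c y β)‖ := norm_sub_le _ _
          _ ≤ (‖T - ∑ c ∈ F, kap c q₀ a₀ * Tc c y β‖ +
            ‖∑ c ∈ F, kap c q₀ a₀ * Tc c y β - ∑ c ∈ F, kap c q₀ a₀ * (kk L β * Tc c y β)‖) + W :=
              add_le_add (norm_add_le _ _) hnrf'
          _ ≤ (W + 35 * W) + W := by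
              gcongr
              exact hmtc.trans hlg
          _ ≤ (5 * C + 40) * W := by nlinarith
      · -- far from the centre, small denominator
        push Not at hβX
        obtain ⟨hf1, hf2⟩ := hFar P X y β hPP3 hPX hlog hy hβX (hβ97 β hβ)
        have h1 : ‖T‖ ≤ W := (hf1 q₀ a₀ hq₀1 hqP).trans (hpwX _ (by norm_num))
        have hsum : ∑ c ∈ PS P, ‖Tc c y β‖ ≤ W := by
          calc ∑ c ∈ PS P, ‖Tc c y β‖ ≤ ∑ c ∈ PS P, (X * P ^ (-(7 / 2) : ℝ)) := sum_le_sum hf2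
            _ = (PS P).card * (X * P ^ (-(7 / 2) : ℝ)) := by rw [sum_const, nsmul_eq_mul]
            _ ≤ P ^ 2 * (X * P ^ (-(7 / 2) : ℝ)) :=
                mul_le_mul_of_nonneg_right (hCps P hP1') (by positivity)
            _ = X * P ^ (-(3 / 2) : ℝ) := by
                rw [← Real.rpow_natCast P 2, mul_left_comm, ← Real.rpow_add hP0]
                norm_num
            _ ≤ W := hpwX _ (by norm_num)
        have h2 : ‖∑ c ∈ F, kap c q₀ a₀ * (kk L β * Tc c y β)‖ ≤ W := by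
          have h3 : ∑ c ∈ F, kap c q₀ a₀ * (kk L β * Tc c y β) =
              ∑ c ∈ F, (kap c q₀ a₀ * kk L β) * Tc c y β :=
            sum_congr rfl fun c _ => by ring
          rw [h3]
          have h4 := sum_bd_SUP F (PS P) hFsub (fun c => kap c q₀ a₀ * kk L β)
            (fun c => Tc c y β) 1 zero_le_one (fun c hc => by
              have h3 : c.r ∣ q₀ := (mem_filter.1 hc).2.1
              have h4 := (hTa c q₀ a₀ hq₀1 h3).1
              rw [norm_mul]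
              exact mul_le_one₀ h4 (norm_nonneg _) hkk1)
          refine h4.trans ?_
          rw [one_mul]
          exact hsum
        have htri : T - G = T - ∑ c ∈ F, kap c q₀ a₀ * (kk L β * Tc c y β) -
            (G - ∑ c ∈ F, kap c q₀ a₀ * (kk L β * Tc c y β)) := by ring
        rw [htri]
        calc _ ≤ ‖T - ∑ c ∈ F, kap c q₀ a₀ * (kk L β * Tc c y β)‖ +
            ‖G - ∑ c ∈ F, kap c q₀ a₀ * (kk L β * Tc c y β)‖ := norm_sub_le _ _
          _ ≤ (‖T‖ + ‖∑ c ∈ F, kap c q₀ a₀ * (kk L β * Tc c y β)‖) + W :=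
              add_le_add (norm_sub_le _ _) hnrf'
          _ ≤ (W + W) + W := by gcongr
          _ ≤ (5 * C + 40) * W := by nlinarith
    · -- large denominator
      push Not at hqP
      have h1 : ‖T‖ ≤ W := (hMid P X Q y hPP4 hPX hlog hQ hQ' hy).1 q₀ a₀ β hqP hq₀D hcop hβ
      have hsum : ∑ c ∈ PS P, ‖Tc c y β‖ ≤ 5 * X := by
        by_cases hβX : |β| ≤ P ^ 20 / X
        · exact hyp y β hy hβX
        · push Not at hβX
          obtain ⟨-, hf2⟩ := hFar P X y β hPP3 hPX hlog hy hβX (hβ97 β hβ)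
          calc ∑ c ∈ PS P, ‖Tc c y β‖ ≤ ∑ c ∈ PS P, (X * P ^ (-(7 / 2) : ℝ)) := sum_le_sum hf2
            _ = (PS P).card * (X * P ^ (-(7 / 2) : ℝ)) := by rw [sum_const, nsmul_eq_mul]
            _ ≤ P ^ 2 * (X * P ^ (-(7 / 2) : ℝ)) :=
                mul_le_mul_of_nonneg_right (hCps P hP1') (by positivity)
            _ = X * P ^ (-(3 / 2) : ℝ) := by
                rw [← Real.rpow_natCast P 2, mul_left_comm, ← Real.rpow_add hP0]
                norm_num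
            _ ≤ X * 1 := mul_le_mul_of_nonneg_left
                (Real.rpow_le_one_of_one_le_of_nonpos hP1' (by norm_num)) hX0.le
            _ ≤ 5 * X := by linarith
      have hq₀0 : (0 : ℝ) < q₀ := lt_trans hP0 hqP
      have h2 : ‖∑ c ∈ F, kap c q₀ a₀ * (kk L β * Tc c y β)‖ ≤ 5 * (C * W) := by
        have h3 : ∑ c ∈ F, kap c q₀ a₀ * (kk L β * Tc c y β) =
            ∑ c ∈ F, (kap c q₀ a₀ * kk L β) * Tc c y β :=
          sum_congr rfl fun c _ => by ring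
        rw [h3]
        have h4 := sum_bd_SUP F (PS P) hFsub (fun c => kap c q₀ a₀ * kk L β)
          (fun c => Tc c y β) (C * P ^ (-(2 / 5) : ℝ)) (by positivity) (fun c hc => by
            have h5 : c.r ∣ q₀ := (mem_filter.1 hc).2.1
            have h6 := (hTa c q₀ a₀ hq₀1 h5).2
            have h7 : (c.r : ℝ) ≤ P := mem_PS_SUP P c (mem_filter.1 hc).1
            have h8 : √(c.r : ℝ) ≤ P ^ (1 / 2 : ℝ) := by
              rw [← Real.sqrt_eq_rpow]
              exact Real.sqrt_le_sqrt h7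
            have h9 : (q₀ : ℝ) ^ (-(9 / 10) : ℝ) ≤ P ^ (-(9 / 10) : ℝ) :=
              Real.rpow_le_rpow_of_nonpos hP0 hqP.le (by norm_num)
            have h10 : ‖kap c q₀ a₀‖ ≤ C * P ^ (-(2 / 5) : ℝ) := by
              calc ‖kap c q₀ a₀‖ ≤ C * √(c.r : ℝ) * (q₀ : ℝ) ^ (-(9 / 10) : ℝ) := h6
                _ ≤ C * P ^ (1 / 2 : ℝ) * P ^ (-(9 / 10) : ℝ) :=
                    mul_le_mul (mul_le_mul_of_nonneg_left h8 (by linarith)) h9 (by positivity)
                      (by positivity)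
                _ = C * P ^ (-(2 / 5) : ℝ) := by
                    rw [mul_assoc, ← Real.rpow_add hP0]
                    norm_num
            rw [norm_mul]
            calc ‖kap c q₀ a₀‖ * ‖kk L β‖ ≤ C * P ^ (-(2 / 5) : ℝ) * 1 :=
                  mul_le_mul h10 hkk1 (norm_nonneg _) (by positivity)
              _ = C * P ^ (-(2 / 5) : ℝ) := mul_one _)
        refine h4.trans ?_
        calc C * P ^ (-(2 / 5) : ℝ) * ∑ c ∈ PS P, ‖Tc c y β‖
            ≤ C * P ^ (-(2 / 5) : ℝ) * (5 * X) :=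
              mul_le_mul_of_nonneg_left hsum (by positivity)
          _ = 5 * (C * W) := by rw [hW]; ring
      have htri : T - G = T - ∑ c ∈ F, kap c q₀ a₀ * (kk L β * Tc c y β) -
          (G - ∑ c ∈ F, kap c q₀ a₀ * (kk L β * Tc c y β)) := by ring
      rw [htri]
      calc _ ≤ ‖T - ∑ c ∈ F, kap c q₀ a₀ * (kk L β * Tc c y β)‖ +
          ‖G - ∑ c ∈ F, kap c q₀ a₀ * (kk L β * Tc c y β)‖ := norm_sub_le _ _
        _ ≤ (‖T‖ + ‖∑ c ∈ F, kap c q₀ a₀ * (kk L β * Tc c y β)‖) + W :=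
            add_le_add (norm_sub_le _ _) hnrf'
        _ ≤ (W + 5 * (C * W)) + W := by gcongr
        _ ≤ (5 * C + 40) * W := by nlinarith

theorem hSup : StNrf → StNrn → StFar → StMid → StMtc → StKer → StTa1 → StCps → StSup := by
  intro hNrf hNrn hFar hMid hMtc hKer hTa hCps
  obtain ⟨P0, C, hP0, hC, h⟩ := main_SUP hNrf hNrn hFar hMid hMtc hKer hTa hCps
  refine ⟨max P0 ((5 * C + 40) ^ 15), hP0.trans (le_max_left _ _), ?_⟩
  intro P X Q L hP hPX hlog hQ hQ' hL hL' hyp y α hy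
  have hPP0 : P0 ≤ P := (le_max_left _ _).trans hP
  have hPC : (5 * C + 40) ^ 15 ≤ P := (le_max_right _ _).trans hP
  have hPpos : 0 < P := by linarith
  have key : ∀ γ : ℝ, ‖Sx th y γ - ∑ n ∈ Ioc 0 y, Gc P Q L n * ex (n * γ)‖ ≤
      X * P ^ (-(1 / 3) : ℝ) := by
    intro γ
    refine (h P X Q L hPP0 hPX hlog hQ hQ' hL hL' hyp y γ hy).trans ?_
    have h1 : 5 * C + 40 ≤ P ^ (1 / 15 : ℝ) := by
      have h2 : ((5 * C + 40) ^ 15) ^ (1 / 15 : ℝ) ≤ P ^ (1 / 15 : ℝ) :=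
        Real.rpow_le_rpow (by positivity) hPC (by norm_num)
      have h3 : ((5 * C + 40) ^ 15) ^ (1 / 15 : ℝ) = 5 * C + 40 := by
        rw [← Real.rpow_natCast, ← Real.rpow_mul (by linarith)]
        norm_num
      rwa [h3] at h2
    calc (5 * C + 40) * (X * P ^ (-(2 / 5) : ℝ))
        ≤ P ^ (1 / 15 : ℝ) * (X * P ^ (-(2 / 5) : ℝ)) :=
          mul_le_mul_of_nonneg_right h1 (by positivity)
      _ = X * P ^ (-(1 / 3) : ℝ) := by
          rw [mul_left_comm, ← Real.rpow_add hPpos]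
          norm_num
  rw [red_SUP]
  have h1 := key α
  have h2 := key (-α)
  rw [norm_div]
  have h3 : ‖(2 : ℂ)‖ = 2 := by norm_num
  rw [h3]
  have h4 := norm_add_le (Sx th y α - ∑ n ∈ Ioc 0 y, Gc P Q L n * ex (n * α))
    ((starRingEnd ℂ) (Sx th y (-α) - ∑ n ∈ Ioc 0 y, Gc P Q L n * ex (n * (-α))))
  rw [Complex.norm_conj] at h4
  linarith

end Pool.Agent.Helper61.PB
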